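import Mathlib
import Pool.Agent.Lib.MP_aa4a89_co.Defs
import Pool.Agent.Lib.MP_aa4a89_co.Main

/-!
# MP_aa4a89_co: the cycle isolation constant does not tend to zero

The graphs are obtained from line graphs of cubic graphs of large girth by replacing every vertex
by two adjacent twins.
-/

namespace Pool.Agent.Results.MP_aa4a89_co.CyclesOneEighteenth

open Pool.Agent.Lib.MP_aa4a89_co

/-- For every `k ≥ 3` the numbers `c({C_k}, n)` satisfy `liminf_n c({C_k}, n) ≥ 1 / 18`. -/
theorem result (k : ℕ) (hk : 3 ≤ k) (ε : ℝ) (hε : 0 < ε) :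
    ∃ n₀ : ℕ, ∀ n ≥ n₀, 1 / 18 - ε ≤ c (SimpleGraph.cycleGraph k) n :=
  cycles k hk ε hε

end Pool.Agent.Results.MP_aa4a89_co.CyclesOneEighteenth
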