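import Mathlib
import Pool.Agent.Lib.MP_aa4a89_co.Defs
import Pool.Agent.Lib.MP_aa4a89_co.Exp.Final

/-!
# MP_aa4a89_co: the order of magnitude of `c({C_k}, n)` and `c({P_k}, n)` for all `n ≥ k`

The graphs are cubes of expanders of bounded degree.
-/

namespace Pool.Agent.Results.MP_aa4a89_co.ExactOrder

open Pool.Agent.Lib.MP_aa4a89_co

/-- For all `3 ≤ k ≤ n` the numbers `c({C_k}, n) ≤ c({P_k}, n)` lie between
`(n - k + 1) / (157216 n)` and `(n - k + 1) / n`. -/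
theorem result (k n : ℕ) (hk : 3 ≤ k) (hkn : k ≤ n) :
    ((n : ℝ) - k + 1) / (157216 * n) ≤ c (SimpleGraph.cycleGraph k) n ∧
    c (SimpleGraph.cycleGraph k) n ≤ c (SimpleGraph.pathGraph k) n ∧
    c (SimpleGraph.pathGraph k) n ≤ ((n : ℝ) - k + 1) / n :=
  ⟨Exp.lower k n hk hkn, Exp.mid k n hk hkn, Exp.upper k n hk hkn⟩

end Pool.Agent.Results.MP_aa4a89_co.ExactOrder
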