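import Mathlib
import Pool.Agent.Lib.MP_aa4a89_co.Defs
import Pool.Agent.Lib.MP_aa4a89_co.Star.Final

/-!
# MP_aa4a89_co: stars, an upper bound below `1 / (k + 1)`

`c F n` and the isolation number are defined in `Pool.Agent.Lib.MP_aa4a89_co.Defs`; the star
`K_{1,k}` is Mathlib's `completeBipartiteGraph (Fin 1) (Fin k)`.
-/

namespace Pool.Agent.Results.MP_aa4a89_co.StarsBelowBorg

open Pool.Agent.Lib.MP_aa4a89_co

/-- For all `k ≥ 1` and all `n` other than `k + 1` and `2 (k + 1)` we have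
`c({K_{1,k}}, n) ≤ 1 / (k + 1 + 1 / (6 k³ + 3 k))`; for `n = t (k + 1)` with `t ≥ 3` we have
`c({K_{1,k}}, n) ≤ (t - 1) / n`. -/
theorem result (k : ℕ) (hk : 1 ≤ k) :
    (∀ n : ℕ, n ≠ k + 1 → n ≠ 2 * (k + 1) →
      c (completeBipartiteGraph (Fin 1) (Fin k)) n ≤ 1 / (k + 1 + 1 / (6 * k ^ 3 + 3 * k))) ∧
    (∀ t : ℕ, 3 ≤ t →
      c (completeBipartiteGraph (Fin 1) (Fin k)) (t * (k + 1)) ≤ (t - 1) / (t * (k + 1))) :=
  ⟨fun _ h1 h2 => Star.c_le hk h1 h2, fun _ ht => Star.c_le_mul hk ht⟩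

end Pool.Agent.Results.MP_aa4a89_co.StarsBelowBorg
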